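import Pool.Agent.TH611.M5.U6
import Pool.Agent.TH73.GR.G5

/-!
# Integrality of the degrees of curves and of multiplicities at smooth points
-/

set_option autoImplicit false

open MvPolynomial Module Filter Topology

namespace Pool.Agent.Y799.SE

open Pool.Agent.TH279.GR Pool.Agent.TH306.N4 Pool.Agent.TH611.M5

variable {a b : ℕ}

/-- a curve is relevant -/
theorem curv_rel {Q : Ideal (Co a b)} {dA dB : ℝ} (hQ : Curv Q dA dB) :
    Pool.Agent.TH279.GR.Rel Q := by
  by_contra h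
  obtain ⟨n0, h0⟩ := Pool.Agent.TH279.GR.G3.hf_irrel h
  have h1 := hQ.growth 1 1 le_rfl le_rfl
  have h2 : Tendsto (fun t : ℕ => (hf Q (1 * t) (1 * t) : ℝ) / (t : ℝ)) atTop (𝓝 0) := by
    refine tendsto_const_nhds.congr' ?_
    filter_upwards [eventually_ge_atTop n0] with t ht
    rw [one_mul, h0 t t ht ht]
    simp
  have h3 := tendsto_nhds_unique h1 h2
  have h4 := hQ.pos
  push_cast at h3
  linarith

theorem curv_ne {P Q : Ideal (Co a b)} {α β γ : ℝ} (hX : Surf P α β γ) (hPQ : P ≤ Q)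
    {dA dB : ℝ} (hQ : Curv Q dA dB) : P < Q := by
  refine lt_of_le_of_ne hPQ ?_
  rintro rfl
  have h1 := hX.growth 1 1 le_rfl le_rfl
  have h2 := hQ.growth 1 1 le_rfl le_rfl
  have h3 : Tendsto (fun t : ℕ => 2 * ((hf P (1 * t) (1 * t) : ℝ) / (t : ℝ)) * (1 / (t : ℝ)))
      atTop (𝓝 (2 * (dA * ((1 : ℕ) : ℝ) + dB * ((1 : ℕ) : ℝ)) * 0)) :=
    (h2.const_mul 2).mul tendsto_one_div_atTop_nhds_zero_nat
  have h4 : Tendsto (fun t : ℕ => 2 * (hf P (1 * t) (1 * t) : ℝ) / (t : ℝ) ^ 2) atTop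
      (𝓝 (2 * (dA * ((1 : ℕ) : ℝ) + dB * ((1 : ℕ) : ℝ)) * 0)) := by
    refine h3.congr fun t => ?_
    rw [sq]
    ring
  have h5 := tendsto_nhds_unique h1 h4
  have h6 := hX.pos
  push_cast at h5
  linarith

theorem lin_tendsto {Q : Ideal (Co a b)} {dA dB : ℕ} {c : ℤ} (hl : Lin Q dA dB c) {p q : ℕ}
    (hp : 1 ≤ p) (hq : 1 ≤ q) :
    Tendsto (fun t : ℕ => (hf Q (p * t) (q * t) : ℝ) / (t : ℝ)) atTop
      (𝓝 ((dA : ℝ) * p + dB * q)) := by
  obtain ⟨n0, h⟩ := hl
  have h1 : Tendsto (fun t : ℕ => ((dA : ℝ) * p + dB * q) + (c : ℝ) / (t : ℝ)) atTop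
      (𝓝 (((dA : ℝ) * p + dB * q) + 0)) :=
    tendsto_const_nhds.add (tendsto_const_div_atTop_nhds_zero_nat _)
  rw [add_zero] at h1
  refine h1.congr' ?_
  filter_upwards [eventually_ge_atTop n0, eventually_ge_atTop 1] with t ht ht1
  have e1 : n0 ≤ p * t := ht.trans (Nat.le_mul_of_pos_left t hp)
  have e2 : n0 ≤ q * t := ht.trans (Nat.le_mul_of_pos_left t hq)
  have h2 := h (p * t) (q * t) e1 e2
  have h3 : ((hf Q (p * t) (q * t) : ℕ) : ℝ) = dA * (p * t) + dB * (q * t) + c := by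
    have := congrArg (Int.cast : ℤ → ℝ) h2
    push_cast at this
    exact this
  have ht0 : (t : ℝ) ≠ 0 := by
    have : (0 : ℝ) < t := by exact_mod_cast ht1
    exact this.ne'
  rw [h3]
  field_simp

/-- the degrees of a curve on a surface are natural numbers -/
theorem curv_nat {P Q : Ideal (Co a b)} {α β γ : ℝ} (hX : Surf P α β γ) (hPQ : P ≤ Q)
    {dA dB : ℝ} (hQ : Curv Q dA dB) : ∃ nA nB : ℕ, dA = nA ∧ dB = nB := by
  obtain ⟨nA, nB, c, hl⟩ := Pool.Agent.TH279.GR.G5.surf_lin hX hQ.prime hQ.hom (curv_rel hQ)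
    (curv_ne hX hPQ hQ)
  have h1 := tendsto_nhds_unique (hQ.growth 1 1 le_rfl le_rfl) (lin_tendsto hl le_rfl le_rfl)
  have h2 := tendsto_nhds_unique (hQ.growth 2 1 (by norm_num) le_rfl)
    (lin_tendsto hl (p := 2) (q := 1) (by norm_num) le_rfl)
  push_cast at h1 h2
  exact ⟨nA, nB, by linarith, by linarith⟩

/-- the multiplicity at a smooth point is a natural number -/
theorem mult_nat {P : Ideal (Co a b)} {α β γ : ℝ} (hS : Surf P α β γ) {i : Fin (a + 1)}
    {j : Fin (b + 1)} {w : Ix a b → ℂ} (hw : ∀ f ∈ chart i j P, eval w f = 0)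
    (hsm : SmoothAt P i j w) {Q : Ideal (Co a b)} (hQh : BHom Q) (hPQ : P < Q) {μ : ℝ}
    (hμ : IsMult i j Q w μ) : ∃ k : ℕ, μ = k := by
  have hPp := hS.prime
  have hPh := hS.hom
  have hwi : w (Sum.inl i) = 1 ∧ w (Sum.inr j) = 1 := by
    constructor
    · have := hw (X (Sum.inl i) - 1) (Ideal.mem_sup_right (Ideal.subset_span (by simp)))
      rwa [map_sub, map_one, eval_X, sub_eq_zero] at this
    · have := hw (X (Sum.inr j) - 1) (Ideal.mem_sup_right (Ideal.subset_span (by simp)))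
      rwa [map_sub, map_one, eval_X, sub_eq_zero] at this
  have hwP : ∀ f ∈ P, eval w f = 0 := fun f hf => hw f (Ideal.mem_sup_left hf)
  have hiP : X (Sum.inl i) ∉ P := fun h => by
    have := hwP _ h
    rw [eval_X, hwi.1] at this
    exact one_ne_zero this
  have hjP : X (Sum.inr j) ∉ P := fun h => by
    have := hwP _ h
    rw [eval_X, hwi.2] at this
    exact one_ne_zero this
  have hJp := chart_prime hPp hPh hiP hjP
  have hle : chart i j P ≤ chart i j Q := sup_le_sup_right hPQ.le _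
  by_cases hwQ : ∀ f ∈ Q, eval w f = 0
  · obtain ⟨F, hF, hFP⟩ := Set.exists_of_ssubset (show (P : Set (Co a b)) ⊂ Q from hPQ)
    obtain ⟨p, hp⟩ : ∃ p : ℕ × ℕ, weightedHomogeneousComponent (wt a b) p F ∉ P := by
      by_contra hcon
      push Not at hcon
      obtain ⟨S, D, -, hSF⟩ := exists_homog F
      apply hFP
      rw [SetLike.mem_coe, hSF]
      exact Submodule.sum_mem _ fun p _ => hcon p
    have hpJ : weightedHomogeneousComponent (wt a b) p F ∉ chart i j P := by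
      intro h
      exact hp (Pool.Agent.TH880.N4.mem_of_mem_chart P hPp hPh hiP hjP (u := p.1) (v := p.2)
        (weightedHomogeneousComponent_isWeightedHomogeneous p F) h)
    have hpQ : weightedHomogeneousComponent (wt a b) p F ∈ chart i j Q :=
      Ideal.mem_sup_left (hQh F hF p)
    obtain ⟨K1, μ', c, hK⟩ := exists_mult_affine (chart i j P) (chart i j Q) hJp w hw
      (by have := hsm 1; simpa using this) (by have := hsm 2; simpa using this) hle hpQ hpJ
    have hlim := tendsto_of_eventually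
      (fun K => finrank ℂ (Co a b ⧸ (chart i j Q ⊔ mx w ^ K))) hK
    exact ⟨μ', tendsto_nhds_unique hμ hlim⟩
  · push Not at hwQ
    obtain ⟨f, hf, hf0⟩ := hwQ
    have htop : ∀ K, chart i j Q ⊔ mx w ^ K = ⊤ := by
      intro K
      refine Ideal.sup_pow_eq_top ?_
      rw [Ideal.eq_top_iff_one]
      have h1 : (1 : Co a b) = C (eval w f)⁻¹ * f + (1 - C (eval w f)⁻¹ * f) := by ring
      rw [h1]
      refine Submodule.add_mem_sup (Ideal.mul_mem_left _ _ (Ideal.mem_sup_left hf)) ?_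
      rw [mem_mx_iff, map_sub, map_one, map_mul, eval_C, inv_mul_cancel₀ hf0, sub_self]
    have hlim : IsMult i j Q w 0 := by
      refine tendsto_zero_of_le
        (fun K => finrank ℂ (Co a b ⧸ (chart i j Q ⊔ mx w ^ K))) (c := 0) fun K => ?_
      show finrank ℂ (Co a b ⧸ (chart i j Q ⊔ mx w ^ K)) ≤ 0
      rw [htop K]
      have : Subsingleton (Co a b ⧸ (⊤ : Ideal (Co a b))) := Ideal.Quotient.subsingleton_iff.2 rfl
      rw [finrank_zero_of_subsingleton]
    exact ⟨0, by rw [tendsto_nhds_unique hμ hlim]; simp⟩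

end Pool.Agent.Y799.SE
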