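import Pool.Agent.TH306.N4.Main
import Pool.Agent.Y799.SE.Integral

/-!
# Multi-point Seshadri constants of nef divisors: the explicit threshold `4 k² L²`

The assembly of `Pool.Agent.TH306.N4` for one chart and one given pencil in `|k L|`, with the
threshold `4 k² L²` (and `9` if `k² L² = 1`), for all integral surfaces.
-/

set_option autoImplicit false

open MvPolynomial Module Filter Topology

namespace Pool.Agent.Y799.SE

open Pool.Agent.TH279.GR Pool.Agent.TH880.NB Pool.Agent.TH176.Nag Pool.Agent.TH306.N4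
open Pool.Agent.TH611.M5

variable {a b : ℕ}

theorem pa1 (r n : ℕ) (hr : 1 ≤ r) (hn : 4 * r ≤ n) (h9 : r = 1 → 9 ≤ n) : PA n 0 r := by
  rcases Nat.lt_or_ge r 2 with h | h
  · have : r = 1 := by omega
    subst this
    have h1 := Pool.Agent.TH552.NB.PA_one (h9 rfl)
    exact_mod_cast h1
  · exact Pool.Agent.TH266.NS.PA_all h hn

/-- the growth of the sections of `m L` -/
theorem growth {P : Ideal (Co a b)} {α β γ δ : ℕ} (hX : Surf P α β γ) (hnef : Nef P)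
    (hδ : δ + 2 * β = α + γ) {i : Fin (a + 1)} {j : Fin (b + 1)} {FF : Type} [Field FF]
    [Algebra ℂ FF] {π : Co a b →ₐ[ℂ] FF} (hπ : Mod P i j π) :
    (∀ m, FiniteDimensional ℂ (SecM π m)) ∧
    ∀ ε : ℝ, 0 < ε → ∃ m₀ : ℕ, ∀ m, m₀ ≤ m →
      ((δ : ℝ) - ε) * (m : ℝ) ^ 2 ≤ 2 * finrank ℂ (SecM π m) := by
  have hδr : ((α : ℝ) - 2 * β + γ) = δ := by
    have : ((δ + 2 * β : ℕ) : ℝ) = ((α + γ : ℕ) : ℝ) := by rw [hδ]
    push_cast at this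
    linarith
  have h := Pool.Agent.TH279.GR.S7b.s7 a b P α β γ hX hnef i j FF π hπ
  rwa [hδr] at h

/-- existence of the pencil on normal surfaces -/
theorem exists_pencil {P : Ideal (Co a b)} {α β γ δ : ℕ} (hX : Surf P α β γ) (hN : Normal P)
    (hnef : Nef P) (hδ : δ + 2 * β = α + γ) (hδ1 : 1 ≤ δ) {i : Fin (a + 1)} {j : Fin (b + 1)}
    {FF : Type} [Field FF] [Algebra ℂ FF] {π : Co a b →ₐ[ℂ] FF} (hπ : Mod P i j π) :
    ∃ (k : ℕ) (g₁ g₂ : FF), Pencil π k g₁ g₂ := by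
  have hδ0 : (0 : ℝ) < δ := by exact_mod_cast hδ1
  obtain ⟨hfin, hgr⟩ := growth hX hnef hδ hπ
  refine Pool.Agent.TH471.N4.s1 a b P α β γ hX hN i j FF π hπ ?_
  obtain ⟨m₀, hm₀⟩ := hgr (δ / 2) (by positivity)
  refine ⟨δ / 4, by positivity, m₀, fun m hm => ?_⟩
  have := hm₀ m hm
  linarith

/-- **the lower bound, with the explicit threshold** -/
theorem lower {P : Ideal (Co a b)} {α β γ δ : ℕ} (hX : Surf P α β γ) (hnef : Nef P)
    (hδ : δ + 2 * β = α + γ) (hδ1 : 1 ≤ δ) {i : Fin (a + 1)} {j : Fin (b + 1)}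
    (hi : X (Sum.inl i) ∉ P) (hj : X (Sum.inr j) ∉ P)
    {FF : Type} [Field FF] [Algebra ℂ FF] {π : Co a b →ₐ[ℂ] FF} (hπ : Mod P i j π)
    {k : ℕ} {g₁ g₂ : FF} (hP : Pencil π k g₁ g₂) {n : ℕ} (hn : 4 * (k ^ 2 * δ) ≤ n)
    (h9 : k ^ 2 * δ = 1 → 9 ≤ n) :
    ∃ H : ℕ → MvPolynomial (Fin n × Ix a b) ℂ,
      (∃ w : Fin n → Ix a b → ℂ, Tuple i j P w ∧
        ∀ k, eval (fun p => w p.1 p.2) (H k) ≠ 0) ∧
      ∀ w : Fin n → Ix a b → ℂ, Tuple i j P w →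
        (∀ k, eval (fun p => w p.1 p.2) (H k) ≠ 0) →
        Function.Injective w ∧
        ∀ (Q : Ideal (Co a b)) (dA dB : ℝ), P ≤ Q → Curv Q dA dB →
          ∀ m : Fin n → ℝ, (∀ q, IsMult i j Q (w q) (m q)) →
            √((δ : ℝ) / n) * ∑ q, m q ≤ dA - dB := by
  have hδ0 : (0 : ℝ) < δ := by exact_mod_cast hδ1
  have hqδ : 0 < √(δ : ℝ) := Real.sqrt_pos.2 hδ0
  obtain ⟨hfin, hgr⟩ := growth hX hnef hδ hπ
  have hrk := Pool.Agent.TH13.N4.s3 a b P α β γ hX i j FF π hπ hfin δ hδ0 hgr k g₁ g₂ hP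
  have hk := hP.hk
  obtain ⟨r, hr⟩ : ∃ r : ℕ, r = k ^ 2 * δ := ⟨_, rfl⟩
  have hr1 : 1 ≤ r := by
    rw [hr]
    exact Nat.one_le_iff_ne_zero.2 (by positivity)
  have hrr : (r : ℝ) = (k : ℝ) ^ 2 * δ := by rw [hr]; push_cast; rfl
  have hn1 : 1 ≤ n := by
    rw [← hr] at hn
    omega
  have hn0 : (0 : ℝ) < n := by exact_mod_cast hn1
  have hqn : 0 < √(n : ℝ) := Real.sqrt_pos.2 hn0
  have hPAn := pa1 r n hr1 (by rw [hr]; exact hn) (by rw [hr]; exact h9)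
  choose m s T hs hnum hTc hTE hT using fun κ : ℕ =>
    num hk hδ0 hrr hrk hn1 hPAn (ε := 1 / ((κ : ℝ) + 1)) (by positivity)
  have hsec : ∀ κ : ℕ, ∃ w : Fin n → Ix a b → ℂ, Tuple i j P w ∧
      SepV (chart i j P) (fun F => Sec π (m κ) (π F)) (s κ) w := fun κ =>
    Pool.Agent.TH471.N4.s4 j3 a b P α β γ hX i j FF π hπ hfin k g₁ g₂ hP n (m κ) (s κ)
      (by have := hs κ; omega) (T κ) (hTc κ) (hTE κ) (hT κ)
  have hVeq : ∀ κ, (fun F : Co a b => F ∈ (SecM π (m κ)).comap π.toLinearMap) =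
      fun F => Sec π (m κ) (π F) := fun κ => by
    funext F
    exact propext ((Pool.Agent.TH880.N4.s0 a b P i j FF π hπ (m κ)).1 (π F))
  obtain ⟨H, hH1, hH2⟩ := Pool.Agent.TH611.M5.s9 a b P hX.prime hX.hom i j hi hj
    (fun κ => (SecM π (m κ)).comap π.toLinearMap) n s hs (fun κ => by
      rw [hVeq κ]
      exact hsec κ)
  refine ⟨H, hH1, fun w hw hHw => ?_⟩
  obtain ⟨hinj, hsep⟩ := hH2 w hw hHw
  refine ⟨hinj, fun Q dA dB hPQ hQ μ hμ => ?_⟩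
  have hd : dB ≤ dA := hnef Q dA dB hPQ hQ
  have hμ' : √((δ : ℝ) / n) * ∑ q, μ q = (√(δ : ℝ) * ∑ q, μ q) / √(n : ℝ) := by
    rw [Real.sqrt_div hδ0.le]; ring
  rw [hμ', div_le_iff₀ hqn]
  have hall : ∀ κ : ℕ, √(δ : ℝ) * ∑ q, μ q ≤
      (1 + 1 / ((κ : ℝ) + 1)) * ((dA - dB) * √(n : ℝ)) := by
    intro κ
    have hsepκ := hsep κ
    rw [hVeq κ] at hsepκ
    have h61 := s6 a b P i j FF π hπ n (m κ) (s κ) (by have := hs κ; omega) w hw hinj hsepκ Q dA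
      dB hPQ hQ hd μ hμ
    have hs1 : (1 : ℝ) < s κ := by exact_mod_cast hs κ
    have h62 : ((s κ : ℝ) - 1) * (√(δ : ℝ) * ∑ q, μ q) ≤
        ((s κ : ℝ) - 1) * ((1 + 1 / ((κ : ℝ) + 1)) * ((dA - dB) * √(n : ℝ))) := by
      calc ((s κ : ℝ) - 1) * (√(δ : ℝ) * ∑ q, μ q) =
          √(δ : ℝ) * (((s κ : ℝ) - 1) * ∑ q, μ q) := by ring
        _ ≤ √(δ : ℝ) * (m κ * (dA - dB)) := mul_le_mul_of_nonneg_left h61 hqδ.le
        _ = (m κ * √(δ : ℝ)) * (dA - dB) := by ring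
        _ ≤ ((1 + 1 / ((κ : ℝ) + 1)) * (√(n : ℝ) * ((s κ : ℝ) - 1))) * (dA - dB) :=
          mul_le_mul_of_nonneg_right (hnum κ) (by linarith)
        _ = _ := by ring
    exact le_of_mul_le_mul_left h62 (by linarith)
  exact le_of_forall_eps hall

/-- no curve attains the bound if `n L²` is not a square -/
theorem strict {δ n M e : ℕ} (hn : 1 ≤ n) (hsq : ¬ IsSquare (δ * n)) (hM : 1 ≤ M)
    (h : √((δ : ℝ) / n) * M ≤ e) : √((δ : ℝ) / n) * M < e := by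
  refine lt_of_le_of_ne h fun heq => hsq ?_
  have hn0 : (0 : ℝ) < n := by exact_mod_cast hn
  have h1 : (√((δ : ℝ) / n) * M) ^ 2 = (e : ℝ) ^ 2 := by rw [heq]
  rw [mul_pow, Real.sq_sqrt (by positivity)] at h1
  have h2 : ((δ * n * M ^ 2 : ℕ) : ℝ) = ((n * e) ^ 2 : ℕ) := by
    push_cast
    have : (n : ℝ) ^ 2 * ((δ : ℝ) / n * M ^ 2) = n ^ 2 * e ^ 2 := by rw [h1]
    have h3 : (n : ℝ) ^ 2 * ((δ : ℝ) / n * M ^ 2) = δ * n * M ^ 2 := by
      field_simp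
    rw [h3] at this
    rw [this]
    ring
  have h3 : δ * n * M ^ 2 = (n * e) ^ 2 := by exact_mod_cast h2
  have h4 : M ^ 2 ∣ (n * e) ^ 2 := ⟨δ * n, by rw [← h3]; ring⟩
  have h5 : M ∣ n * e := (Nat.pow_dvd_pow_iff (by norm_num)).1 h4
  obtain ⟨c, hc⟩ := h5
  rw [hc] at h3
  have h6 : δ * n = c ^ 2 := by
    have hM2 : 0 < M ^ 2 := by positivity
    have : M ^ 2 * (δ * n) = M ^ 2 * c ^ 2 := by
      calc M ^ 2 * (δ * n) = δ * n * M ^ 2 := by ring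
        _ = _ := by rw [h3]; ring
    exact Nat.eq_of_mul_eq_mul_left hM2 this
  exact ⟨c, by rw [h6]; ring⟩

/-- the infimum is not attained if `n L²` is not a square -/
theorem not_attained {P : Ideal (Co a b)} {α β γ δ : ℕ} (hX : Surf P α β γ) (hnef : Nef P)
    {i : Fin (a + 1)} {j : Fin (b + 1)} {n : ℕ} (hn : 1 ≤ n) {w : Fin n → Ix a b → ℂ}
    (hw : Tuple i j P w) (hsm : ∀ q, SmoothAt P i j (w q)) (hsq : ¬ IsSquare (δ * n))
    (hlow : ∀ (Q : Ideal (Co a b)) (dA dB : ℝ), P ≤ Q → Curv Q dA dB →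
          ∀ m : Fin n → ℝ, (∀ q, IsMult i j Q (w q) (m q)) →
            √((δ : ℝ) / n) * ∑ q, m q ≤ dA - dB) :
    √((δ : ℝ) / n) ∉ ratios i j P w := by
  rintro ⟨Q, dA, dB, μ, hPQ, hQ, hμ, hpos, hx⟩
  have hlt := curv_ne hX hPQ hQ
  have hch : ∀ q, ∀ f ∈ chart i j P, eval (w q) f = 0 := tuple_iff.1 hw
  obtain ⟨nA, nB, hA, hB⟩ := curv_nat hX hPQ hQ
  have hle : dB ≤ dA := hnef Q dA dB hPQ hQ
  choose k hk using fun q => mult_nat hX (hch q) (hsm q) hQ.hom hlt (hμ q)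
  have hBA : nB ≤ nA := by
    rw [hA, hB] at hle
    exact_mod_cast hle
  have h1 := hlow Q dA dB hPQ hQ μ hμ
  have hsum : ∑ q, μ q = ((∑ q, k q : ℕ) : ℝ) := by
    push_cast
    exact Finset.sum_congr rfl fun q _ => hk q
  have hdiff : dA - dB = ((nA - nB : ℕ) : ℝ) := by
    rw [hA, hB, Nat.cast_sub hBA]
  rw [hsum] at hpos hx h1
  rw [hdiff] at hx h1
  have hM : 1 ≤ ∑ q, k q := by exact_mod_cast hpos
  have h2 := strict hn hsq hM h1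
  rw [hx, div_mul_cancel₀ _ hpos.ne'] at h2
  exact lt_irrefl _ h2

/-- **the equality, with the explicit threshold** -/
theorem equality {P : Ideal (Co a b)} {α β γ δ : ℕ} (hX : Surf P α β γ) (hnef : Nef P)
    (hδ : δ + 2 * β = α + γ) (hδ1 : 1 ≤ δ) {i : Fin (a + 1)} {j : Fin (b + 1)}
    (hi : X (Sum.inl i) ∉ P) (hj : X (Sum.inr j) ∉ P)
    {FF : Type} [Field FF] [Algebra ℂ FF] {π : Co a b →ₐ[ℂ] FF} (hπ : Mod P i j π)
    {k : ℕ} {g₁ g₂ : FF} (hP : Pencil π k g₁ g₂) {n : ℕ} (hn : 4 * (k ^ 2 * δ) ≤ n)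
    (h9 : k ^ 2 * δ = 1 → 9 ≤ n) :
    ∃ H : ℕ → MvPolynomial (Fin n × Ix a b) ℂ,
      (∃ w : Fin n → Ix a b → ℂ, Tuple i j P w ∧
        ∀ k, eval (fun p => w p.1 p.2) (H k) ≠ 0) ∧
      ∀ w : Fin n → Ix a b → ℂ, Tuple i j P w →
        (∀ k, eval (fun p => w p.1 p.2) (H k) ≠ 0) →
        Function.Injective w ∧ IsGLB (ratios i j P w) (√((δ : ℝ) / n)) ∧
        (¬ IsSquare (δ * n) → √((δ : ℝ) / n) ∉ ratios i j P w) := by
  classical
  have hδr : ((α : ℝ) - 2 * β + γ) = δ := by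
    have : ((δ + 2 * β : ℕ) : ℝ) = ((α + γ : ℕ) : ℝ) := by rw [hδ]
    push_cast at this
    linarith
  have hk := hP.hk
  have hn1 : 1 ≤ n := by
    have h1 : 1 ≤ k ^ 2 * δ := Nat.one_le_iff_ne_zero.2 (by positivity)
    omega
  obtain ⟨H, ⟨w0, hw0, hw0H⟩, hH⟩ := lower hX hnef hδ hδ1 hi hj hπ hP hn h9
  obtain ⟨h, hh, hsm⟩ := Pool.Agent.TH471.N4.u4 j3 a b P α β γ hX i j hi hj
  have hJ := chart_prime hX.prime hX.hom hi hj
  obtain ⟨z, hz, hzh⟩ := exists_point_countable (ι := Unit) (chart i j P) hJ (fun _ => h)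
    (fun _ => hh)
  let H' : ℕ → MvPolynomial (Fin n × Ix a b) ℂ := fun k =>
    Nat.casesOn k (∏ q : Fin n, rename (fun t => (q, t)) h) H
  have hev : ∀ w : Fin n → Ix a b → ℂ, eval (fun p => w p.1 p.2) (H' 0) =
      ∏ q, eval (w q) h := by
    intro w
    show eval (fun p => w p.1 p.2) (∏ q : Fin n, rename (fun t => (q, t)) h) = _
    rw [map_prod]
    refine Finset.prod_congr rfl fun q _ => ?_
    rw [eval_rename]
    rfl
  obtain ⟨w1, hw1, hw1H⟩ := exists_tuple_countable (chart i j P) hJ H' (fun k => by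
    rcases k with _ | k
    · refine ⟨fun _ => z, fun _ => hz, ?_⟩
      exact ne_of_eq_of_ne (hev fun _ => z) (Finset.prod_ne_zero_iff.2 fun q _ => hzh ())
    · exact ⟨w0, tuple_iff.1 hw0, hw0H k⟩)
  refine ⟨H', ⟨w1, tuple_iff.2 hw1, hw1H⟩, fun w hw hwH => ?_⟩
  obtain ⟨hinj, hlow⟩ := hH w hw (fun k => hwH (k + 1))
  have hsmq : ∀ q, SmoothAt P i j (w q) := by
    intro q
    refine hsm (w q) (tuple_iff.1 hw q) ?_
    have h3 := hwH 0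
    rw [hev] at h3
    exact Finset.prod_ne_zero_iff.1 h3 q (Finset.mem_univ q)
  have hU : Upper := upper_of Pool.Agent.TH880.N4.s0 Pool.Agent.TH279.GR.S7b.s7 u2
    (u3_of Pool.Agent.TH471.N4.v3) Pool.Agent.TH471.N4.u5 Pool.Agent.TH611.M5.u6
  have hup := hU a b P α β γ hX hnef (by omega) i j hi hj n hn1 w hw hsmq
  rw [hδr] at hup
  refine ⟨hinj, ⟨?_, ?_⟩, fun hsq => not_attained hX hnef hn1 hw hsmq hsq hlow⟩
  · rintro x ⟨Q, dA, dB, μ, hPQ, hQ, hμ, hpos, rfl⟩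
    rw [le_div_iff₀ hpos]
    exact hlow Q dA dB hPQ hQ μ hμ
  · intro y hy
    refine le_of_forall_pos_le_add fun ε hε => ?_
    obtain ⟨Q, dA, dB, μ, hPQ, hQ, hμ, hpos, hle⟩ := hup ε hε
    refine (hy ⟨Q, dA, dB, μ, hPQ, hQ, hμ, hpos, rfl⟩).trans ?_
    rw [div_le_iff₀ hpos]
    exact hle

/-- the case `L² = 0` -/
theorem equality_zero {P : Ideal (Co a b)} {α β γ : ℕ} (hX : Surf P α β γ) (hnef : Nef P)
    (hL : 2 * β = α + γ) {n : ℕ} (hn : 1 ≤ n) {i : Fin (a + 1)} {j : Fin (b + 1)}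
    (hi : X (Sum.inl i) ∉ P) (hj : X (Sum.inr j) ∉ P) :
    ∃ H : ℕ → MvPolynomial (Fin n × Ix a b) ℂ,
      (∃ w : Fin n → Ix a b → ℂ, Tuple i j P w ∧
        ∀ k, eval (fun p => w p.1 p.2) (H k) ≠ 0) ∧
      ∀ w : Fin n → Ix a b → ℂ, Tuple i j P w →
        (∀ k, eval (fun p => w p.1 p.2) (H k) ≠ 0) →
        Function.Injective w ∧ IsGLB (ratios i j P w) (√((0 : ℝ) / n)) := by
  have h := zero_case (up0 Pool.Agent.TH471.N4.v3) (Pool.Agent.TH471.N4.u4 j3) nonConst hX hnef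
    hL hn hi hj
  have hδr : ((α : ℝ) - 2 * β + γ) = 0 := by
    have : ((2 * β : ℕ) : ℝ) = ((α + γ : ℕ) : ℝ) := by rw [hL]
    push_cast at this
    linarith
  rwa [hδr] at h

theorem sq_nonneg' {P : Ideal (Co a b)} {α β γ : ℕ} (hX : Surf P α β γ) (hnef : Nef P) :
    2 * β ≤ α + γ := sqNonneg Pool.Agent.TH471.N4.v3 a b P α β γ hX hnef

end Pool.Agent.Y799.SE
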